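import Pool.Agent.X169.WTF.Clo
import Pool.Agent.X169.WTF.Fam

/-!
The continuity method for taming symplectic forms in a fixed class.
-/

set_option autoImplicit false

open Set Filter Topology MeasureTheory
open scoped Manifold ContDiff

noncomputable section

namespace Pool.Agent.X169.WTG

open Pool.Agent.Y501.SYP Pool.Agent.X169.WTP Pool.Agent.X169.WTF

section

variable {d : ℕ} {X : Type} [TopologicalSpace X] [ChartedSpace (ES d) X]
  {T : Type} [TopologicalSpace T]

/-- `J` is tamed by a symplectic form in the class of `σ`. -/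
def Tamed (σ : Form (ES d) X 2) (J : End (ES d) X) : Prop :=
  ∃ (β : Form (ES d) X 1) (η : Form (ES d) X 2), IsSmooth β ∧ IsSmooth η ∧ IsD β η ∧
    IsTamingSymplectic (addF σ η) J

/-- The estimate at the parameter `t`: along some sequence `tₙ → t` there are forms `σ + dβₙ` with
`βₙ` locally uniformly bounded and converging at every point to a continuous one-form, and with
`σ + dβₙ ≥ τ` in the directions of `J (tₙ)`, where `τ` has only small degeneracies for `J t`,
over the fibres of a smooth map. -/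
def Estimate (σ : Form (ES d) X 2) (J : T → End (ES d) X) (t : T) : Prop :=
  ∃ (tn : ℕ → T) (βn : ℕ → Form (ES d) X 1) (ηn : ℕ → Form (ES d) X 2)
    (τ : Form (ES d) X 2) (α : Form (ES d) X 1)
    (m : ℕ) (Y : Type) (_ : TopologicalSpace Y) (_ : ChartedSpace (ES m) Y)
    (_ : IsManifold 𝓘(ℝ, ES m) ∞ Y) (_ : T2Space Y) (f : X → Y),
    Tendsto tn atTop (𝓝 t) ∧ (∀ n, IsSmooth (βn n)) ∧ (∀ n, IsD (βn n) (ηn n)) ∧
    IsSmooth τ ∧ IsContinuousForm α ∧ ConvForm βn α ∧
    UnifAbove σ τ ηn (fun n => J (tn n)) ∧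
    ContMDiff 𝓘(ℝ, ES d) 𝓘(ℝ, ES m) ∞ f ∧
    (∀ (x : X) (v : TangentSpace 𝓘(ℝ, ES d) x), qd τ (J t) x v ≤ 0 →
      mfderiv 𝓘(ℝ, ES d) 𝓘(ℝ, ES m) f x v = 0) ∧
    SmallOnFibres τ (J t) f

attribute [local instance] cs mf

theorem convEnd_of {J : T → End (ES d) X} (hJ : IsFamily J) {tn : ℕ → T} {t : T}
    (h : Tendsto tn atTop (𝓝 t)) : ConvEnd (fun n => J (tn n)) (J t) := by
  intro x₀ p hp v
  have hop : IsOpen ((univ : Set T) ×ˢ (chartAt (ES d) x₀).target) :=
    isOpen_univ.prod (chartAt (ES d) x₀).open_target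
  have h1 : ContinuousAt (fun q : T × ES d => inChart (J q.1) x₀ q.2 v) (t, p) :=
    (hJ.cont x₀ v).continuousAt (hop.mem_nhds ⟨mem_univ _, hp⟩)
  have h2 : Tendsto (fun n => ((tn n, p) : T × ES d)) atTop (𝓝 (t, p)) :=
    h.prodMk_nhds tendsto_const_nhds
  exact h1.tendsto.comp h2

theorem weakly_of_estimate [IsManifold 𝓘(ℝ, ES d) ∞ X] {σ : Form (ES d) X 2}
    (hσ : IsSmooth σ) {J : T → End (ES d) X} (hJ : IsFamily J) {t : T} (h : Estimate σ J t) :
    WeaklyTamed σ (J t) := by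
  obtain ⟨tn, βn, ηn, τ, α, m, Y, i1, i2, i3, i4, f, h1, h2, h3, h4, h5, h6, h7, h8, h9, h10⟩ := h
  exact ⟨m, Y, i1, i2, i3, i4, f, τ, α, h8, h4, h5,
    weaklyAbove_of_limit hσ h4 h2 h3 (convEnd_of hJ h1) h6 h7, h9, h10⟩

theorem smooth_cont [IsManifold 𝓘(ℝ, ES d) ∞ X] {β : Form (ES d) X 1} (hβ : IsSmooth β) :
    IsContinuousForm β := by
  intro x₀ v
  have hpar : SmoothParam (chartAt (ES d) x₀).target (chartAt (ES d) x₀).symm :=
    ⟨(chartAt (ES d) x₀).open_target, contMDiffOn_chart_symm⟩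
  exact (ContinuousAlternatingMap.apply ℝ (ES d) ℝ ![v]).continuous.comp_continuousOn
    (hβ _ _ hpar).continuousOn

theorem weakly_of_tamed [IsManifold 𝓘(ℝ, ES d) ∞ X] [T2Space X] {σ : Form (ES d) X 2}
    (hσ : IsSmooth σ) {J : End (ES d) X} (h : Tamed σ J) : WeaklyTamed σ J := by
  obtain ⟨β, η, h1, h2, h3, h4⟩ := h
  refine ⟨d, X, inferInstance, inferInstance, inferInstance, inferInstance, id, addF σ η, β,
    contMDiff_id, h4.smooth, smooth_cont h1, ?_, ?_, ?_⟩
  · intro x₀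
    have hpar : SmoothParam (chartAt (ES d) x₀).target (chartAt (ES d) x₀).symm :=
      ⟨(chartAt (ES d) x₀).open_target, contMDiffOn_chart_symm⟩
    refine ⟨(chartAt (ES d) x₀).target, (chartAt (ES d) x₀).open_target, mem_chart_target _ x₀,
      subset_rfl, ?_⟩
    intro φ hφ p hp v
    let S : ES d → (ES d) [⋀^Fin 2]→L[ℝ] ℝ := fun y =>
      pb (chartAt (ES d) x₀).symm σ y - pb (chartAt (ES d) x₀).symm (addF σ η) y
    have hS : ContinuousOn S (chartAt (ES d) x₀).target :=
      (hσ _ _ hpar).continuousOn.sub (h4.smooth _ _ hpar).continuousOn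
    have e1 := ibp (d := d) (chartAt (ES d) x₀).open_target hφ.smooth hφ.compact hφ.supp
      (h1 _ _ hpar) hS v (inChart J x₀ p v)
    refine le_of_le_of_eq ?_ e1.symm
    refine integral_nonneg fun y => ?_
    by_cases hy : y ∈ (chartAt (ES d) x₀).target
    · have e3 := h3 _ _ hpar y hy
      have e5 : extDeriv (pb (chartAt (ES d) x₀).symm β) y ![v, inChart J x₀ p v] =
          pb (chartAt (ES d) x₀).symm η y ![v, inChart J x₀ p v] := by
        rw [e3]
      have e6 : S y ![v, inChart J x₀ p v] =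
          pb (chartAt (ES d) x₀).symm σ y ![v, inChart J x₀ p v] -
          (pb (chartAt (ES d) x₀).symm σ y ![v, inChart J x₀ p v] +
            pb (chartAt (ES d) x₀).symm η y ![v, inChart J x₀ p v]) := rfl
      have e7 : 0 ≤ S y ![v, inChart J x₀ p v] +
          extDeriv (pb (chartAt (ES d) x₀).symm β) y ![v, inChart J x₀ p v] := by
        rw [e6, e5]
        linarith
      exact mul_nonneg (hφ.nonneg y) e7
    · have h0 : φ y = 0 := image_eq_zero_of_notMem_tsupport fun h => hy (hφ.supp h)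
      show 0 ≤ φ y * _
      rw [h0, zero_mul]
  · intro x v hv
    have h0 : v = 0 := by
      by_contra hne
      exact absurd (h4.tames x v hne) (not_lt.2 hv)
    rw [h0]
    exact map_zero _
  · intro z hz
    exact absurd (h4.tames z) hz

/-- the continuity method -/
theorem contMethod [CompactSpace T] [T2Space T] [PreconnectedSpace T]
    [IsManifold 𝓘(ℝ, ES d) ∞ X] [CompactSpace X] [T2Space X]
    (J : T → End (ES d) X) (hJ : IsFamily J)
    (σ : Form (ES d) X 2) (hσ : IsSmooth σ) (hσc : IsClosedForm σ)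
    (t₀ : T) (h₀ : Tamed σ (J t₀))
    (hest : ∀ t ∈ closure {t | Tamed σ (J t)}, ¬ Tamed σ (J t) → Estimate σ J t) :
    (∀ t, Tamed σ (J t)) ∧
    ∃ Ω : T → Form (ES d) X 2, CInf Ω ∧ (∀ t, InS σ (Ω t) ∧ ∀ x, TamesAt (Ω t) (J t) x) ∧
      ∀ (S : Type) [TopologicalSpace S] (γ : S × unitInterval → T), Continuous γ →
        ∀ θ : S → Form (ES d) X 2, CInf θ → (∀ s, InS σ (θ s)) →
          (∀ s x, TamesAt (θ s) (J (γ (s, 0))) x) →
          ∃ H : S × unitInterval → Form (ES d) X 2, CInf H ∧ (∀ q, InS σ (H q)) ∧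
            (∀ s, H (s, 0) = θ s) ∧ ∀ s, H (s, 1) = Ω (γ (s, 1)) := by
  have hopen : IsOpen {t | Tamed σ (J t)} := by
    rw [isOpen_iff_mem_nhds]
    rintro t ⟨β, η, h1, h2, h3, h4⟩
    filter_upwards [tames_open h4.smooth hJ h4.tames] with t' ht'
    exact ⟨β, η, h1, h2, h3, symp_of h4.smooth h4.closed ht'⟩
  have hclosed : IsClosed {t | Tamed σ (J t)} := by
    refine isClosed_of_closure_subset fun t ht => ?_
    by_contra hne
    exact hne (weak_exists hσ hσc (hJ.ac t) (weakly_of_estimate hσ hJ (hest t ht hne)))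
  have huniv : {t | Tamed σ (J t)} = univ := IsClopen.eq_univ ⟨hclosed, hopen⟩ ⟨t₀, h₀⟩
  have hall : ∀ t, Tamed σ (J t) := fun t => by
    have : t ∈ {t | Tamed σ (J t)} := by
      rw [huniv]
      exact mem_univ t
    exact this
  exact ⟨hall, family J hJ σ hσ hσc fun t => weakly_of_tamed hσ (hall t)⟩

end

end Pool.Agent.X169.WTG
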